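import Mathlib

/-!
# Entrywise maps preserving real-rooted polynomials: statements
-/

set_option autoImplicit false

open Polynomial

namespace Pool.Agent.W560.EW

/-- All complex zeros of `p` are real (fails for the zero polynomial). -/
def RR (p : ℝ[X]) : Prop := ∀ z : ℂ, Polynomial.aeval z p = 0 → z.im = 0

/-- The entrywise image `F[p] = sum_{k <= deg p} F(a_k) x^k`. -/
noncomputable def app (F : ℝ → ℝ) (p : ℝ[X]) : ℝ[X] :=
  ∑ k ∈ Finset.range (p.natDegree + 1), Polynomial.monomial k (F (p.coeff k))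

/-- `F[p]` is zero or real-rooted for every real-rooted `p` with positive coefficients. -/
def Pres (F : ℝ → ℝ) : Prop :=
  ∀ p : ℝ[X], (∀ k ≤ p.natDegree, 0 < p.coeff k) → RR p → (app F p = 0 ∨ RR (app F p))

/-- Log-concavity (two by two minors) of real-rooted polynomials with nonnegative coefficients. -/
def S_LC : Prop :=
  ∀ p : ℝ[X], (∀ k, 0 ≤ p.coeff k) → (p = 0 ∨ RR p) → ∀ i j : ℕ, i ≤ j →
    p.coeff i * p.coeff (j + 1) ≤ p.coeff (i + 1) * p.coeff j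

/-- The mean `x p'(x)/p(x)` is a concave function of `x > 0` (three point form). -/
def S_MEAN : Prop :=
  ∀ p : ℝ[X], p ≠ 0 → (∀ k, 0 ≤ p.coeff k) → RR p →
    ∃ M : ℝ → ℝ, (∀ x : ℝ, 0 < x → x * (derivative p).eval x = M x * p.eval x) ∧
      ∀ x y z : ℝ, 0 < x → x ≤ y → y ≤ z →
        (M z - M y) * (y - x) ≤ (M y - M x) * (z - y)

/-- Monotonicity. -/
def S_MON : Prop :=
  ∀ F : ℝ → ℝ, (∀ t, 0 ≤ F t) → Pres F → ∀ a b : ℝ, 0 < a → a ≤ b → F a ≤ F b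

/-- Approximate log-concavity. -/
def S_MID : Prop :=
  ∀ F : ℝ → ℝ, (∀ t, 0 ≤ F t) → Pres F → ∀ a c : ℝ, 0 < a → 0 < c → ∀ k : ℕ, 1 ≤ k →
    F a * F c ≤ F ((1 + 1 / (k : ℝ)) * Real.sqrt (a * c)) ^ 2

/-- Doubling. -/
def S_DBL : Prop :=
  ∀ F : ℝ → ℝ, (∀ t, 0 ≤ F t) → Pres F → ∀ a : ℝ, 0 < a → 2 * F a ≤ F (2 * a)

/-- Log-convexity: the main step. -/
def S_CVX : Prop :=
  ∀ F : ℝ → ℝ, (∀ t, 0 ≤ F t) → Pres F → ∀ t Q : ℝ, 0 < t → 1 < Q →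
    F t ^ 2 ≤ F (t / Q) * F (t * Q)

/-- From the functional inequalities to power functions. -/
def S_POW : Prop :=
  ∀ F : ℝ → ℝ, (∀ t, 0 ≤ F t) → (∀ a b : ℝ, 0 < a → a ≤ b → F a ≤ F b) →
    (∀ a c : ℝ, 0 < a → 0 < c → ∀ k : ℕ, 1 ≤ k →
      F a * F c ≤ F ((1 + 1 / (k : ℝ)) * Real.sqrt (a * c)) ^ 2) →
    (∀ a : ℝ, 0 < a → 2 * F a ≤ F (2 * a)) →
    (∀ t Q : ℝ, 0 < t → 1 < Q → F t ^ 2 ≤ F (t / Q) * F (t * Q)) →
    (∀ t : ℝ, 0 < t → F t = 0) ∨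
      ∃ c α : ℝ, 0 < c ∧ 1 ≤ α ∧ ∀ t : ℝ, 0 < t → F t = c * t ^ α

/-- The quartic `(1+x)^4` excludes exponents slightly above one. -/
def S_QRT : Prop :=
  ∀ α : ℝ, Pres (fun t : ℝ => if 0 < t then t ^ α else 0) → 1 < α → 9 / 8 < α

end Pool.Agent.W560.EW
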