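import Pool.Agent.W560.EW.Stm

/-!
# Entrywise maps preserving real-rooted polynomials: the moment estimates
-/

set_option autoImplicit false

open Polynomial

namespace Pool.Agent.W560.EW

lemma geom_bound (q : ℝ) (h0 : 0 ≤ q) (h1 : q < 1) (m : ℕ) :
    ∑ j ∈ Finset.range m, (j : ℝ) * q ^ j ≤ q / (1 - q) ^ 2 := by
  have hs := hasSum_coe_mul_geometric_of_norm_lt_one (𝕜 := ℝ) (r := q)
    (by rw [Real.norm_eq_abs, abs_of_nonneg h0]; exact h1)
  exact sum_le_hasSum _ (fun j _ => by positivity) hs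

lemma sum_two (L : ℕ) : ∑ k ∈ Finset.range L, ((L : ℝ) - k) * 2 ^ k = 2 ^ (L + 1) - L - 2 := by
  induction L with
  | zero => norm_num
  | succ L ih =>
    rw [Finset.sum_range_succ]
    have h1 : ∑ k ∈ Finset.range L, (((L + 1 : ℕ) : ℝ) - k) * 2 ^ k =
        ∑ k ∈ Finset.range L, ((L : ℝ) - k) * 2 ^ k + ∑ k ∈ Finset.range L, (2 : ℝ) ^ k := by
      rw [← Finset.sum_add_distrib]
      refine Finset.sum_congr rfl (fun k _ => ?_)
      push_cast; ring
    have h2 : ∑ k ∈ Finset.range L, (2 : ℝ) ^ k = 2 ^ L - 1 := by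
      rw [geom_sum_eq (by norm_num)]; norm_num
    rw [h1, ih, h2]
    push_cast
    ring

/-- Evaluation as a sum over a large range. -/
lemma eval_sum (P : ℝ[X]) (n : ℕ) (hn : P.natDegree ≤ n) (x : ℝ) :
    P.eval x = ∑ k ∈ Finset.range (n + 1), P.coeff k * x ^ k :=
  Polynomial.eval_eq_sum_range' (Nat.lt_succ_of_le hn) x

lemma eval_der_sum (P : ℝ[X]) (n : ℕ) (hn : P.natDegree ≤ n) (x : ℝ) :
    x * (derivative P).eval x = ∑ k ∈ Finset.range (n + 1), (k : ℝ) * P.coeff k * x ^ k := by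
  rw [Polynomial.eval_eq_sum_range' (n := n + 1)
    (lt_of_le_of_lt (Polynomial.natDegree_derivative_le P) (by omega)) x]
  have h1 : P.coeff (n + 1) = 0 := Polynomial.coeff_eq_zero_of_natDegree_lt (by omega)
  have h2 : ∑ k ∈ Finset.range (n + 2), (k : ℝ) * P.coeff k * x ^ k =
      ∑ k ∈ Finset.range (n + 1), (k : ℝ) * P.coeff k * x ^ k := by
    rw [Finset.sum_range_succ, h1]; ring
  rw [← h2, Finset.sum_range_succ' _ (n + 1), Finset.mul_sum]
  simp only [Nat.cast_zero, zero_mul, add_zero]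
  refine Finset.sum_congr rfl (fun k _ => ?_)
  rw [Polynomial.coeff_derivative]
  push_cast
  ring

lemma moment (P : ℝ[X]) (n : ℕ) (hn : P.natDegree ≤ n) (x c : ℝ) :
    x * (derivative P).eval x - c * P.eval x =
      ∑ k ∈ Finset.range (n + 1), ((k : ℝ) - c) * P.coeff k * x ^ k := by
  rw [eval_der_sum P n hn, eval_sum P n hn, Finset.mul_sum, ← Finset.sum_sub_distrib]
  refine Finset.sum_congr rfl (fun k _ => ?_)
  ring

lemma term_le_eval (P : ℝ[X]) (h0 : ∀ k, 0 ≤ P.coeff k) (K : ℕ) (x : ℝ) (hx : 0 < x) :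
    P.coeff K * x ^ K ≤ P.eval x := by
  rw [eval_sum P (P.natDegree + K) (by omega) x]
  refine Finset.single_le_sum (f := fun k => P.coeff k * x ^ k)
    (fun k _ => mul_nonneg (h0 k) (by positivity)) ?_
  exact Finset.mem_range.mpr (by omega)

/-- Upper bound of the mean. -/
lemma mean_upper (P : ℝ[X]) (h0 : ∀ k, 0 ≤ P.coeff k) (K : ℕ) (v x : ℝ) (hv : 0 < v)
    (hx : 0 < x) (hxv : x < v) (htail : ∀ j, P.coeff (K + j) * v ^ j ≤ P.coeff K) :
    x * (derivative P).eval x ≤ (K + (x / v) / (1 - x / v) ^ 2) * P.eval x := by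
  have hq0 : 0 ≤ x / v := by positivity
  have hq1 : x / v < 1 := (div_lt_one hv).mpr hxv
  have hm := moment P (P.natDegree + K) (by omega) x K
  have hsplit : ∑ k ∈ Finset.range (P.natDegree + K + 1), ((k : ℝ) - K) * P.coeff k * x ^ k ≤
      P.coeff K * x ^ K * ((x / v) / (1 - x / v) ^ 2) := by
    have e1 : Finset.range (P.natDegree + K + 1) = Finset.range (K + (P.natDegree + 1)) := by
      congr 1; omega
    rw [e1, Finset.sum_range_add]
    have h1 : ∑ k ∈ Finset.range K, ((k : ℝ) - K) * P.coeff k * x ^ k ≤ 0 := by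
      refine Finset.sum_nonpos (fun k hk => ?_)
      have hk' : (k : ℝ) ≤ K := by exact_mod_cast (Finset.mem_range.mp hk).le
      have : 0 ≤ ((K : ℝ) - k) * P.coeff k * x ^ k :=
        mul_nonneg (mul_nonneg (by linarith) (h0 k)) (by positivity)
      linarith
    have h2 : ∑ j ∈ Finset.range (P.natDegree + 1),
        (((K + j : ℕ) : ℝ) - K) * P.coeff (K + j) * x ^ (K + j) ≤
        P.coeff K * x ^ K * ∑ j ∈ Finset.range (P.natDegree + 1), (j : ℝ) * (x / v) ^ j := by
      rw [Finset.mul_sum]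
      refine Finset.sum_le_sum (fun j _ => ?_)
      have e2 : (((K + j : ℕ) : ℝ) - K) * P.coeff (K + j) * x ^ (K + j) =
          (P.coeff (K + j) * v ^ j) * (x ^ K * ((j : ℝ) * (x / v) ^ j)) := by
        push_cast
        rw [div_pow, pow_add]
        field_simp
        ring
      have e3 : P.coeff K * x ^ K * ((j : ℝ) * (x / v) ^ j) =
          P.coeff K * (x ^ K * ((j : ℝ) * (x / v) ^ j)) := by ring
      rw [e2, e3]
      exact mul_le_mul_of_nonneg_right (htail j) (by positivity)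
    have h3 := geom_bound (x / v) hq0 hq1 (P.natDegree + 1)
    have h4 : P.coeff K * x ^ K * ∑ j ∈ Finset.range (P.natDegree + 1), (j : ℝ) * (x / v) ^ j ≤
        P.coeff K * x ^ K * ((x / v) / (1 - x / v) ^ 2) :=
      mul_le_mul_of_nonneg_left h3 (mul_nonneg (h0 K) (by positivity))
    linarith
  have h5 : P.coeff K * x ^ K * ((x / v) / (1 - x / v) ^ 2) ≤
      P.eval x * ((x / v) / (1 - x / v) ^ 2) :=
    mul_le_mul_of_nonneg_right (term_le_eval P h0 K x hx) (by positivity)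
  nlinarith

/-- Lower bound of the mean. -/
lemma mean_lower (P : ℝ[X]) (h0 : ∀ k, 0 ≤ P.coeff k) (K : ℕ) (u x : ℝ) (hu : 0 ≤ u)
    (hx : 0 < x) (hxu : u < x) (htail : ∀ j ≤ K, P.coeff (K - j) ≤ u ^ j * P.coeff K) :
    (K - (u / x) / (1 - u / x) ^ 2) * P.eval x ≤ x * (derivative P).eval x := by
  have hq0 : 0 ≤ u / x := by positivity
  have hq1 : u / x < 1 := (div_lt_one hx).mpr hxu
  have hm := moment P (P.natDegree + K) (by omega) x K
  have hsplit : -(P.coeff K * x ^ K * ((u / x) / (1 - u / x) ^ 2)) ≤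
      ∑ k ∈ Finset.range (P.natDegree + K + 1), ((k : ℝ) - K) * P.coeff k * x ^ k := by
    have e1 : Finset.range (P.natDegree + K + 1) = Finset.range ((K + 1) + P.natDegree) := by
      congr 1; omega
    rw [e1, Finset.sum_range_add]
    have h1 : 0 ≤ ∑ j ∈ Finset.range P.natDegree,
        (((K + 1 + j : ℕ) : ℝ) - K) * P.coeff (K + 1 + j) * x ^ (K + 1 + j) := by
      refine Finset.sum_nonneg (fun j _ => ?_)
      have : (0 : ℝ) ≤ (((K + 1 + j : ℕ) : ℝ) - K) := by push_cast; linarith [(Nat.cast_nonneg j : (0:ℝ) ≤ j)]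
      exact mul_nonneg (mul_nonneg this (h0 _)) (by positivity)
    have h2 : -(P.coeff K * x ^ K * ∑ j ∈ Finset.range (K + 1), (j : ℝ) * (u / x) ^ j) ≤
        ∑ k ∈ Finset.range (K + 1), ((k : ℝ) - K) * P.coeff k * x ^ k := by
      rw [← Finset.sum_range_reflect (fun k => ((k : ℝ) - K) * P.coeff k * x ^ k) (K + 1),
        Finset.mul_sum, ← Finset.sum_neg_distrib]
      refine Finset.sum_le_sum (fun j hj => ?_)
      have hj' : j ≤ K := Nat.lt_succ_iff.mp (Finset.mem_range.mp hj)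
      have e2 : K + 1 - 1 - j = K - j := by omega
      rw [e2]
      have e3 : ((K - j : ℕ) : ℝ) - K = -(j : ℝ) := by
        rw [Nat.cast_sub hj']; ring
      rw [e3]
      have e4 : x ^ K = x ^ (K - j) * x ^ j := by
        rw [← pow_add]; congr 1; omega
      have e5 : P.coeff K * x ^ K * ((j : ℝ) * (u / x) ^ j) =
          (u ^ j * P.coeff K) * ((j : ℝ) * x ^ (K - j)) := by
        rw [e4, div_pow]
        field_simp
      rw [e5]
      have := mul_le_mul_of_nonneg_right (htail j hj')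
        (by positivity : (0 : ℝ) ≤ (j : ℝ) * x ^ (K - j))
      nlinarith
    have h3 := geom_bound (u / x) hq0 hq1 (K + 1)
    have h4 : P.coeff K * x ^ K * ∑ j ∈ Finset.range (K + 1), (j : ℝ) * (u / x) ^ j ≤
        P.coeff K * x ^ K * ((u / x) / (1 - u / x) ^ 2) :=
      mul_le_mul_of_nonneg_left h3 (mul_nonneg (h0 K) (by positivity))
    linarith
  have h5 : P.coeff K * x ^ K * ((u / x) / (1 - u / x) ^ 2) ≤
      P.eval x * ((u / x) / (1 - u / x) ^ 2) :=
    mul_le_mul_of_nonneg_right (term_le_eval P h0 K x hx) (by positivity)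
  nlinarith

/-- The mean at `2` is large if the coefficients increase up to `L+1`. -/
lemma mean_two (P : ℝ[X]) (h0 : ∀ k, 0 ≤ P.coeff k) (L : ℕ)
    (hmon : ∀ k ≤ L, P.coeff k ≤ P.coeff (k + 1)) :
    (L : ℝ) * P.eval 2 ≤ 2 * (derivative P).eval 2 := by
  have hm := moment P (P.natDegree + L + 1) (by omega) 2 L
  have hle : ∀ k ≤ L, P.coeff k ≤ P.coeff L := by
    intro k hk
    have : ∀ m, k ≤ m → m ≤ L → P.coeff k ≤ P.coeff m := by
      intro m hm1
      induction m, hm1 using Nat.le_induction with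
      | base => intro _; exact le_rfl
      | succ m _ ih => intro h; exact (ih (by omega)).trans (hmon m (by omega))
    exact this L hk le_rfl
  have hsplit : 0 ≤ ∑ k ∈ Finset.range (P.natDegree + L + 1 + 1),
      ((k : ℝ) - L) * P.coeff k * 2 ^ k := by
    have e1 : Finset.range (P.natDegree + L + 1 + 1) = Finset.range (L + (2 + P.natDegree)) := by
      congr 1; omega
    rw [e1, Finset.sum_range_add, Finset.sum_range_add]
    have h1 : -(P.coeff L * 2 ^ (L + 1)) ≤ ∑ k ∈ Finset.range L, ((k : ℝ) - L) * P.coeff k * 2 ^ k := by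
      have h1a : ∑ k ∈ Finset.range L, ((L : ℝ) - k) * P.coeff k * 2 ^ k ≤
          P.coeff L * ∑ k ∈ Finset.range L, ((L : ℝ) - k) * 2 ^ k := by
        rw [Finset.mul_sum]
        refine Finset.sum_le_sum (fun k hk => ?_)
        have hk' := Finset.mem_range.mp hk
        have hk2 : (k : ℝ) ≤ L := by exact_mod_cast hk'.le
        have := mul_le_mul_of_nonneg_right (hle k hk'.le)
          (mul_nonneg (by linarith : (0 : ℝ) ≤ (L : ℝ) - k) (by positivity : (0 : ℝ) ≤ 2 ^ k))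
        nlinarith
      rw [sum_two] at h1a
      have h1b : ∑ k ∈ Finset.range L, ((k : ℝ) - L) * P.coeff k * 2 ^ k =
          -∑ k ∈ Finset.range L, ((L : ℝ) - k) * P.coeff k * 2 ^ k := by
        rw [← Finset.sum_neg_distrib]
        exact Finset.sum_congr rfl (fun k _ => by ring)
      rw [h1b]
      have h1c : P.coeff L * (2 ^ (L + 1) - L - 2) ≤ P.coeff L * 2 ^ (L + 1) :=
        mul_le_mul_of_nonneg_left (by linarith [(Nat.cast_nonneg L : (0:ℝ) ≤ L)]) (h0 L)
      linarith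
    have h2 : P.coeff L * 2 ^ (L + 1) ≤ ∑ j ∈ Finset.range 2,
        (((L + j : ℕ) : ℝ) - L) * P.coeff (L + j) * 2 ^ (L + j) := by
      rw [Finset.sum_range_succ, Finset.sum_range_one]
      push_cast
      have := mul_le_mul_of_nonneg_right (hmon L le_rfl) (by positivity : (0 : ℝ) ≤ 2 ^ (L + 1))
      simp only [add_zero, sub_self, zero_mul, zero_add, add_sub_cancel_left, one_mul]
      exact this
    have h3 : 0 ≤ ∑ j ∈ Finset.range P.natDegree,
        (((L + (2 + j) : ℕ) : ℝ) - L) * P.coeff (L + (2 + j)) * 2 ^ (L + (2 + j)) := by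
      refine Finset.sum_nonneg (fun j _ => ?_)
      have : (0 : ℝ) ≤ (((L + (2 + j) : ℕ) : ℝ) - L) := by
        push_cast; linarith [(Nat.cast_nonneg j : (0:ℝ) ≤ j)]
      exact mul_nonneg (mul_nonneg this (h0 _)) (by positivity)
    linarith
  linarith

/-- The numerical contradiction. -/
lemma core (hM : S_MEAN) (P : ℝ[X]) (hP : P ≠ 0) (h0 : ∀ k, 0 ≤ P.coeff k) (hR : RR P)
    (K N0 : ℕ) (u v x1 x2 : ℝ) (hu : 0 ≤ u) (hx1 : u < x1) (hx12 : x1 < x2) (hx2 : x2 < v)
    (hv : v ≤ 1) (hup : ∀ j, P.coeff (K + j) * v ^ j ≤ P.coeff K)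
    (hlo : ∀ j ≤ K, P.coeff (K - j) ≤ u ^ j * P.coeff K)
    (hmon : ∀ k ≤ K + N0, P.coeff k ≤ P.coeff (k + 1)) :
    ((N0 : ℝ) - (x2 / v) / (1 - x2 / v) ^ 2) * (x2 - x1) ≤
      ((u / x1) / (1 - u / x1) ^ 2 + (x2 / v) / (1 - x2 / v) ^ 2) * 2 := by
  obtain ⟨M, hM1, hM2⟩ := hM P hP h0 hR
  have hx1p : 0 < x1 := lt_of_le_of_lt hu hx1
  have hx2p : 0 < x2 := hx1p.trans hx12
  have hvp : 0 < v := hx2p.trans hx2
  have hpos : ∀ x : ℝ, 0 < x → 0 < P.eval x := by
    intro x hx
    obtain ⟨k, hk⟩ : ∃ k, P.coeff k ≠ 0 := by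
      by_contra hcon
      push Not at hcon
      exact hP (Polynomial.ext (fun k => by rw [hcon k, Polynomial.coeff_zero]))
    have hk' : 0 < P.coeff k := lt_of_le_of_ne (h0 k) (Ne.symm hk)
    exact lt_of_lt_of_le (by positivity) (term_le_eval P h0 k x hx)
  have a1 : (K : ℝ) - (u / x1) / (1 - u / x1) ^ 2 ≤ M x1 := by
    have h := mean_lower P h0 K u x1 hu hx1p hx1 hlo
    rw [hM1 x1 hx1p] at h
    exact le_of_mul_le_mul_right h (hpos x1 hx1p)
  have a2 : M x2 ≤ (K : ℝ) + (x2 / v) / (1 - x2 / v) ^ 2 := by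
    have h := mean_upper P h0 K v x2 hvp hx2p hx2 hup
    rw [hM1 x2 hx2p] at h
    exact le_of_mul_le_mul_right h (hpos x2 hx2p)
  have a3 : ((K + N0 : ℕ) : ℝ) ≤ M 2 := by
    have h := mean_two P h0 (K + N0) hmon
    rw [hM1 2 (by norm_num)] at h
    exact le_of_mul_le_mul_right h (hpos 2 (by norm_num))
  push_cast at a3
  have hc := hM2 x1 x2 2 hx1p hx12.le (by linarith)
  set C1 := (u / x1) / (1 - u / x1) ^ 2 with hC1
  set C2 := (x2 / v) / (1 - x2 / v) ^ 2 with hC2
  have hC1n : 0 ≤ C1 := by rw [hC1]; positivity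
  have hC2n : 0 ≤ C2 := by rw [hC2]; positivity
  have b1 : ((N0 : ℝ) - C2) * (x2 - x1) ≤ (M 2 - M x2) * (x2 - x1) :=
    mul_le_mul_of_nonneg_right (by linarith) (by linarith)
  have b2 : (M x2 - M x1) * (2 - x2) ≤ (C1 + C2) * (2 - x2) :=
    mul_le_mul_of_nonneg_right (by linarith) (by linarith)
  have b3 : (C1 + C2) * (2 - x2) ≤ (C1 + C2) * 2 :=
    mul_le_mul_of_nonneg_left (by linarith) (by linarith)
  linarith

end Pool.Agent.W560.EW
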