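import Pool.Agent.W560.EW.Main
import Pool.Agent.W366.EW.Lc
import Pool.Agent.W557.EW.Mean
import Pool.Agent.W585.EW.MON
import Pool.Agent.W398.EW.Mid
import Pool.Agent.W511.EW.Dbl
import Pool.Agent.W717.EW.POW
import Pool.Agent.W984.EW.QRT

/-!
# Entrywise maps preserving real-rooted polynomials are power functions
-/

set_option autoImplicit false

open Polynomial

namespace Pool.Agent.W560.EW

/-- The complex zeros of `sum_{k <= n} a_k z^k` are real (fails if all coefficients vanish). -/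
def VecRR (n : ℕ) (a : ℕ → ℝ) : Prop :=
  ∀ z : ℂ, ∑ k ∈ Finset.range (n + 1), (a k : ℂ) * z ^ k = 0 → z.im = 0

lemma app_aeval (F : ℝ → ℝ) (p : ℝ[X]) (z : ℂ) :
    Polynomial.aeval z (app F p) =
      ∑ k ∈ Finset.range (p.natDegree + 1), (F (p.coeff k) : ℂ) * z ^ k := by
  unfold app
  rw [map_sum]
  refine Finset.sum_congr rfl (fun k _ => ?_)
  rw [Polynomial.aeval_monomial]
  rfl

lemma aeval_vec (p : ℝ[X]) (z : ℂ) :
    Polynomial.aeval z p =
      ∑ k ∈ Finset.range (p.natDegree + 1), (p.coeff k : ℂ) * z ^ k := by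
  rw [Polynomial.aeval_eq_sum_range]
  refine Finset.sum_congr rfl (fun k _ => ?_)
  rw [Complex.real_smul]

theorem power (F : ℝ → ℝ) (hF : ∀ t, 0 ≤ F t) (h : Pres F) :
    (∀ t : ℝ, 0 < t → F t = 0) ∨
      ∃ c α : ℝ, 0 < c ∧ (α = 1 ∨ 9 / 8 < α) ∧ ∀ t : ℝ, 0 < t → F t = c * t ^ α := by
  have hLC : S_LC := Pool.Agent.W366.EW.s_lc
  have hM : S_MEAN := Pool.Agent.W557.EW.mean
  have hMon : S_MON := Pool.Agent.W585.EW.mon hLC
  have hMid : S_MID := Pool.Agent.W398.EW.mid hLC
  have hDbl : S_DBL := Pool.Agent.W511.EW.Dbl.dbl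
  have hPow : S_POW := Pool.Agent.W717.EW.POW.main
  have hCvx : S_CVX := cvx hLC hM hMon
  rcases hPow F hF (hMon F hF h) (hMid F hF h) (hDbl F hF h) (hCvx F hF h) with h0 | h1
  · exact Or.inl h0
  · obtain ⟨c, α, hc, hα, hform⟩ := h1
    refine Or.inr ⟨c, α, hc, ?_, hform⟩
    rcases eq_or_lt_of_le hα with h2 | h2
    · exact Or.inl h2.symm
    · refine Or.inr (Pool.Agent.W984.EW.qrt α ?_ h2)
      intro p hp hR
      have key : ∀ z : ℂ, Polynomial.aeval z (app F p) =
          (c : ℂ) * Polynomial.aeval z (app (fun t : ℝ => if 0 < t then t ^ α else 0) p) := by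
        intro z
        rw [app_aeval, app_aeval, Finset.mul_sum]
        refine Finset.sum_congr rfl (fun k hk => ?_)
        have hk' : k ≤ p.natDegree := Nat.lt_succ_iff.mp (Finset.mem_range.mp hk)
        have h3 := hp k hk'
        rw [hform _ h3]
        simp only [h3, if_true]
        push_cast
        ring
      rcases h p hp hR with h3 | h3
      · left
        have h4 : (app F p).coeff 0 = 0 := by rw [h3, Polynomial.coeff_zero]
        rw [app_coeff, if_pos (Nat.zero_le _), hform _ (hp 0 (Nat.zero_le _))] at h4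
        have h5 : 0 < c * (p.coeff 0) ^ α :=
          mul_pos hc (Real.rpow_pos_of_pos (hp 0 (Nat.zero_le _)) α)
        linarith
      · right
        intro z hz
        exact h3 z (by rw [key z, hz, mul_zero])

theorem pres_of_vec (F : ℝ → ℝ)
    (h : ∀ (n : ℕ) (a : ℕ → ℝ), (∀ k ≤ n, 0 < a k) → VecRR n a →
      ((∀ k ≤ n, F (a k) = 0) ∨ VecRR n (fun k => F (a k)))) :
    Pres (fun t => if 0 ≤ t then F t else 0) := by
  intro p hp hR
  have hv : VecRR p.natDegree p.coeff := by
    intro z hz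
    exact hR z (by rw [aeval_vec]; exact hz)
  have he : ∀ k ≤ p.natDegree,
      (fun t : ℝ => if 0 ≤ t then F t else 0) (p.coeff k) = F (p.coeff k) := by
    intro k hk
    simp only [(hp k hk).le, if_true]
  rcases h p.natDegree p.coeff hp hv with h1 | h1
  · left
    refine Polynomial.ext (fun k => ?_)
    rw [app_coeff, Polynomial.coeff_zero]
    by_cases hk : k ≤ p.natDegree
    · rw [if_pos hk]
      exact (he k hk).trans (h1 k hk)
    · rw [if_neg hk]
  · right
    intro z hz
    refine h1 z ?_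
    rw [app_aeval] at hz
    rw [← hz]
    refine Finset.sum_congr rfl (fun k hk => ?_)
    have h2 := he k (Nat.lt_succ_iff.mp (Finset.mem_range.mp hk))
    simp only at h2
    rw [h2]

/-- The vector form of the main theorem. -/
theorem vec_power (F : ℝ → ℝ) (hF0 : F 0 = 0) (hF : ∀ t, 0 ≤ t → 0 ≤ F t)
    (h : ∀ (n : ℕ) (a : ℕ → ℝ), (∀ k ≤ n, 0 < a k) → VecRR n a →
      ((∀ k ≤ n, F (a k) = 0) ∨ VecRR n (fun k => F (a k)))) :
    (∀ t : ℝ, 0 ≤ t → F t = 0) ∨
      ∃ c α : ℝ, 0 < c ∧ (α = 1 ∨ 9 / 8 < α) ∧ ∀ t : ℝ, 0 ≤ t → F t = c * t ^ α := by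
  have h1 := power (fun t => if 0 ≤ t then F t else 0)
    (fun t => by
      by_cases ht : 0 ≤ t
      · simp only [ht, if_true]; exact hF t ht
      · simp only [ht, if_false]; exact le_rfl) (pres_of_vec F h)
  rcases h1 with h2 | ⟨c, α, hc, hα, h2⟩
  · left
    intro t ht
    rcases ht.eq_or_lt with h3 | h3
    · rw [← h3]; exact hF0
    · have h4 := h2 t h3
      simpa [h3.le] using h4
  · refine Or.inr ⟨c, α, hc, hα, ?_⟩
    intro t ht
    rcases ht.eq_or_lt with h3 | h3
    · rw [← h3, hF0, Real.zero_rpow (by rcases hα with h | h <;> linarith), mul_zero]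
    · have h4 := h2 t h3
      simpa [h3.le] using h4

end Pool.Agent.W560.EW
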