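import Pool.Agent.W560.EW.Core

/-!
# Entrywise maps preserving real-rooted polynomials: the main step
-/

set_option autoImplicit false

open Polynomial

namespace Pool.Agent.W560.EW

lemma app_coeff (F : ℝ → ℝ) (p : ℝ[X]) (k : ℕ) :
    (app F p).coeff k = if k ≤ p.natDegree then F (p.coeff k) else 0 := by
  unfold app
  rw [Polynomial.finsetSum_coeff]
  simp only [Polynomial.coeff_monomial]
  rw [Finset.sum_ite_eq' (Finset.range (p.natDegree + 1)) k]
  simp only [Finset.mem_range, Nat.lt_succ_iff]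

lemma app_nonneg (F : ℝ → ℝ) (hF : ∀ t, 0 ≤ F t) (p : ℝ[X]) (k : ℕ) :
    0 ≤ (app F p).coeff k := by
  rw [app_coeff]
  split_ifs
  · exact hF _
  · exact le_rfl

/-- The binomial polynomial. -/
noncomputable def bp (c r : ℝ) (n : ℕ) : ℝ[X] := C c * (X + C r) ^ n

lemma bp_coeff (c r : ℝ) (n k : ℕ) :
    (bp c r n).coeff k = c * (r ^ (n - k) * (n.choose k : ℝ)) := by
  unfold bp
  rw [Polynomial.coeff_C_mul, Polynomial.coeff_X_add_C_pow]

lemma bp_natDegree (c r : ℝ) (n : ℕ) (hc : 0 < c) : (bp c r n).natDegree = n := by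
  unfold bp
  rw [Polynomial.natDegree_C_mul hc.ne', Polynomial.natDegree_pow, Polynomial.natDegree_X_add_C,
    mul_one]

lemma bp_pos (c r : ℝ) (n k : ℕ) (hc : 0 < c) (hr : 0 < r) (hk : k ≤ n) :
    0 < (bp c r n).coeff k := by
  rw [bp_coeff]
  have : (0 : ℝ) < (n.choose k : ℝ) := by exact_mod_cast Nat.choose_pos hk
  positivity

lemma bp_rr (c r : ℝ) (n : ℕ) (hc : 0 < c) : RR (bp c r n) := by
  intro z hz
  unfold bp at hz
  rw [map_mul, map_pow, map_add, Polynomial.aeval_X, Polynomial.aeval_C, Polynomial.aeval_C] at hz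
  rcases mul_eq_zero.mp hz with h | h
  · exfalso
    have : (c : ℂ) = 0 := h
    exact hc.ne' (by exact_mod_cast this)
  · have h2 : z + (algebraMap ℝ ℂ) r = 0 := by
      by_contra hne
      exact (pow_ne_zero n hne) h
    have h3 : z = ((-r : ℝ) : ℂ) := by
      have : z = -((algebraMap ℝ ℂ) r) := by linear_combination h2
      rw [this]; push_cast; rfl
    rw [h3, Complex.ofReal_im]

lemma bp_rec (c r : ℝ) (n k : ℕ) (hk : k < n) :
    (bp c r n).coeff (k + 1) * ((k : ℝ) + 1) * r = (bp c r n).coeff k * ((n : ℝ) - k) := by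
  rw [bp_coeff, bp_coeff]
  have h1 : ((n.choose (k + 1) : ℕ) : ℝ) * ((k : ℝ) + 1) = (n.choose k : ℝ) * ((n : ℝ) - k) := by
    have := Nat.choose_succ_right_eq n k
    have h2 : (((n.choose (k + 1)) * (k + 1) : ℕ) : ℝ) = ((n.choose k * (n - k) : ℕ) : ℝ) := by
      exact_mod_cast this
    rw [Nat.cast_mul, Nat.cast_mul, Nat.cast_sub hk.le] at h2
    push_cast at h2
    exact h2
  have h2 : r ^ (n - k) = r ^ (n - (k + 1)) * r := by
    rw [← pow_succ]; congr 1; omega
  rw [h2]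
  linear_combination (c * r ^ (n - (k + 1)) * r) * h1

theorem cvx (hLC : S_LC) (hM : S_MEAN) (hMon : S_MON) : S_CVX := by
  intro F hF hPres t Q ht hQ
  by_contra hcon
  push Not at hcon
  have hQ0 : 0 < Q := by linarith
  have hFt : 0 < F t := by
    rcases (hF t).lt_or_eq with h | h
    · exact h
    · exfalso
      rw [← h] at hcon
      have := mul_nonneg (hF (t / Q)) (hF (t * Q))
      norm_num at hcon
      linarith
  have hFQ : F t ≤ F (t * Q) := hMon F hF hPres t (t * Q) ht (by nlinarith)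
  have hFQ0 : 0 < F (t * Q) := lt_of_lt_of_le hFt hFQ
  obtain ⟨u, hu⟩ : ∃ u, u = F (t / Q) / F t := ⟨_, rfl⟩
  obtain ⟨v, hv⟩ : ∃ v, v = F t / F (t * Q) := ⟨_, rfl⟩
  have hu0 : 0 ≤ u := by rw [hu]; exact div_nonneg (hF _) (hF _)
  have hv1 : v ≤ 1 := by rw [hv]; exact (div_le_one hFQ0).mpr hFQ
  have huv : u < v := by
    rw [hu, hv, div_lt_div_iff₀ hFt hFQ0]
    nlinarith
  obtain ⟨x1, hx1⟩ : ∃ x1, x1 = (2 * u + v) / 3 := ⟨_, rfl⟩
  obtain ⟨x2, hx2⟩ : ∃ x2, x2 = (u + 2 * v) / 3 := ⟨_, rfl⟩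
  have h1 : u < x1 := by rw [hx1]; linarith
  have h2 : x1 < x2 := by rw [hx1, hx2]; linarith
  have h3 : x2 < v := by rw [hx2]; linarith
  obtain ⟨C1, hC1⟩ : ∃ C1, C1 = (u / x1) / (1 - u / x1) ^ 2 := ⟨_, rfl⟩
  obtain ⟨C2, hC2⟩ : ∃ C2, C2 = (x2 / v) / (1 - x2 / v) ^ 2 := ⟨_, rfl⟩
  obtain ⟨N0, hN0⟩ := exists_nat_gt ((C1 + C2) * 2 / (x2 - x1) + C2)
  obtain ⟨K', hK'⟩ := exists_nat_gt (((N0 : ℝ) + 2) / (Q - 1))
  obtain ⟨K, hK⟩ : ∃ K, K = K' + 1 := ⟨_, rfl⟩
  have hK1 : 1 ≤ K := by omega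
  have hKR : (1 : ℝ) ≤ K := by exact_mod_cast hK1
  have hKQ : (K : ℝ) + N0 + 2 ≤ Q * K := by
    have h4 : ((N0 : ℝ) + 2) < K' * (Q - 1) := by
      rwa [div_lt_iff₀ (by linarith)] at hK'
    have h5 : (K : ℝ) = K' + 1 := by rw [hK]; push_cast; ring
    have h6 : (K' : ℝ) * (Q - 1) ≤ K * (Q - 1) := by
      rw [h5]; nlinarith
    nlinarith
  obtain ⟨L, hL⟩ : ∃ L, L = K + N0 := ⟨_, rfl⟩
  obtain ⟨n, hn⟩ : ∃ n, n = L + (L + 1) * (N0 + 1) := ⟨_, rfl⟩
  have hnL : L + 1 ≤ n := by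
    rw [hn]; nlinarith
  have hLR : (L : ℝ) = K + N0 := by rw [hL]; push_cast; ring
  have hnR : (n : ℝ) = L + (L + 1) * (N0 + 1) := by rw [hn]; push_cast; ring
  have hN0n : (0 : ℝ) ≤ N0 := Nat.cast_nonneg _
  have hKn : K + 1 ≤ n := by omega
  have hKnR : (K : ℝ) + 1 ≤ n := by exact_mod_cast hKn
  have hLnR : (L : ℝ) + 1 ≤ n := by exact_mod_cast hnL
  obtain ⟨r, hr⟩ : ∃ r, r = ((n : ℝ) - K + 1) / (Q * K) := ⟨_, rfl⟩
  have hQK : 0 < Q * K := by positivity
  have hr0 : 0 < r := by rw [hr]; exact div_pos (by linarith) hQK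
  have hrQ : r * (Q * K) = (n : ℝ) - K + 1 := by
    rw [hr]; field_simp
  obtain ⟨c, hc⟩ : ∃ c, c = t / (r ^ (n - K) * (n.choose K : ℝ)) := ⟨_, rfl⟩
  have hch : (0 : ℝ) < (n.choose K : ℝ) := by exact_mod_cast Nat.choose_pos (by omega : K ≤ n)
  have hc0 : 0 < c := by rw [hc]; positivity
  obtain ⟨p, hp⟩ : ∃ p, p = bp c r n := ⟨_, rfl⟩
  have hdeg : p.natDegree = n := by rw [hp]; exact bp_natDegree c r n hc0
  have hpos : ∀ k ≤ n, 0 < p.coeff k := by
    intro k hk; rw [hp]; exact bp_pos c r n k hc0 hr0 hk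
  have hrec : ∀ k < n, p.coeff (k + 1) * ((k : ℝ) + 1) * r = p.coeff k * ((n : ℝ) - k) := by
    intro k hk; rw [hp]; exact bp_rec c r n k hk
  have haK : p.coeff K = t := by
    rw [hp, bp_coeff, hc]; field_simp
  have haK1 : p.coeff (K - 1) = t / Q := by
    have h := hrec (K - 1) (by omega)
    have e : K - 1 + 1 = K := by omega
    rw [e, haK, Nat.cast_sub hK1] at h
    push_cast at h
    have hne : (n : ℝ) - K + 1 ≠ 0 := by linarith
    rw [eq_div_iff hQ0.ne']
    have h7 : p.coeff (K - 1) * ((n : ℝ) - K + 1) = t * K * r := by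
      linear_combination -h
    have h8 : (p.coeff (K - 1) * Q - t) * ((n : ℝ) - K + 1) = 0 := by
      linear_combination Q * h7 + t * hrQ
    rcases mul_eq_zero.mp h8 with h9 | h9
    · linear_combination h9
    · exact absurd h9 hne
  have haKs : p.coeff (K + 1) ≤ t * Q := by
    have h := hrec K (by omega)
    rw [haK] at h
    have h7 : (0 : ℝ) < ((K : ℝ) + 1) * r := by positivity
    have h8 : t * ((n : ℝ) - K) ≤ t * Q * (((K : ℝ) + 1) * r) := by
      have h9 : (n : ℝ) - K ≤ Q * (((K : ℝ) + 1) * r) := by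
        have : Q * (((K : ℝ) + 1) * r) = r * (Q * K) + Q * r := by ring
        rw [this, hrQ]
        have : 0 < Q * r := by positivity
        linarith
      calc t * ((n : ℝ) - K) ≤ t * (Q * (((K : ℝ) + 1) * r)) :=
            mul_le_mul_of_nonneg_left h9 ht.le
        _ = t * Q * (((K : ℝ) + 1) * r) := by ring
    have h10 : p.coeff (K + 1) * (((K : ℝ) + 1) * r) ≤ t * Q * (((K : ℝ) + 1) * r) := by
      calc p.coeff (K + 1) * (((K : ℝ) + 1) * r) = t * ((n : ℝ) - K) := by linear_combination h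
        _ ≤ _ := h8
    exact le_of_mul_le_mul_right h10 h7
  have hainc : ∀ k ≤ L, p.coeff k ≤ p.coeff (k + 1) := by
    intro k hk
    have h := hrec k (by omega)
    have hkR : (k : ℝ) ≤ L := by exact_mod_cast hk
    have h7 : (0 : ℝ) < ((k : ℝ) + 1) * r := by positivity
    have h8 : ((k : ℝ) + 1) * r ≤ (n : ℝ) - k := by
      have h9 : ((L : ℝ) + 1) * r ≤ (n : ℝ) - L := by
        have h10 : ((L : ℝ) + 1) * ((n : ℝ) - K + 1) ≤ ((n : ℝ) - L) * (Q * K) := by
          have h11 : ((n : ℝ) - L) * ((L : ℝ) + 2) ≤ ((n : ℝ) - L) * (Q * K) :=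
            mul_le_mul_of_nonneg_left (by linarith) (by linarith)
          have h12 : (n : ℝ) - K + 1 = ((n : ℝ) - L) + (N0 + 1) := by rw [hLR]; ring
          have h13 : (n : ℝ) - L = (L + 1) * (N0 + 1) := by rw [hnR]; ring
          rw [h12]
          nlinarith
        have h14 : (((L : ℝ) + 1) * r) * (Q * K) ≤ ((n : ℝ) - L) * (Q * K) := by
          calc (((L : ℝ) + 1) * r) * (Q * K) = ((L : ℝ) + 1) * ((n : ℝ) - K + 1) := by
                rw [← hrQ]; ring
            _ ≤ _ := h10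
        exact le_of_mul_le_mul_right h14 hQK
      have h15 : ((k : ℝ) + 1) * r ≤ ((L : ℝ) + 1) * r :=
        mul_le_mul_of_nonneg_right (by linarith) hr0.le
      linarith
    have h16 := hpos k (by omega)
    have h17 : p.coeff k * (((k : ℝ) + 1) * r) ≤ p.coeff (k + 1) * (((k : ℝ) + 1) * r) := by
      calc p.coeff k * (((k : ℝ) + 1) * r) ≤ p.coeff k * ((n : ℝ) - k) :=
            mul_le_mul_of_nonneg_left h8 h16.le
        _ = p.coeff (k + 1) * (((k : ℝ) + 1) * r) := by linear_combination -h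
    exact le_of_mul_le_mul_right h17 h7
  -- the image polynomial
  obtain ⟨P, hP⟩ : ∃ P, P = app F p := ⟨_, rfl⟩
  have hPc : ∀ k ≤ n, P.coeff k = F (p.coeff k) := by
    intro k hk; rw [hP, app_coeff, hdeg, if_pos hk]
  have hP0 : ∀ k, 0 ≤ P.coeff k := by intro k; rw [hP]; exact app_nonneg F hF p k
  have hPK : P.coeff K = F t := by rw [hPc K (by omega), haK]
  have hPne : P ≠ 0 := by
    intro h
    rw [h, Polynomial.coeff_zero] at hPK
    linarith
  have hR0 : P = 0 ∨ RR P := by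
    rw [hP]
    refine hPres p (fun k hk => hpos k (by omega)) ?_
    rw [hp]; exact bp_rr c r n hc0
  have hR : RR P := hR0.resolve_left hPne
  have hlc := hLC P hP0 hR0
  have hPK1 : P.coeff (K - 1) = u * P.coeff K := by
    rw [hPc (K - 1) (by omega), haK1, hPK, hu]; field_simp
  have hPKs : P.coeff (K + 1) * v ≤ P.coeff K := by
    rw [hPc (K + 1) (by omega), hPK]
    have h7 : F (p.coeff (K + 1)) ≤ F (t * Q) :=
      hMon F hF hPres _ _ (hpos (K + 1) (by omega)) haKs
    calc F (p.coeff (K + 1)) * v ≤ F (t * Q) * v :=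
          mul_le_mul_of_nonneg_right h7 (by linarith)
      _ = F t := by rw [hv]; field_simp
  have hPKp : 0 < P.coeff K := by rw [hPK]; exact hFt
  have hup : ∀ j, P.coeff (K + j) * v ^ j ≤ P.coeff K := by
    intro j
    induction j with
    | zero => simp
    | succ j ih =>
      have h7 := hlc K (K + j) (by omega)
      have h8 : (P.coeff (K + (j + 1)) * v ^ (j + 1)) * P.coeff K ≤ P.coeff K * P.coeff K := by
        have hvj : 0 ≤ v ^ (j + 1) := pow_nonneg (by linarith) _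
        have hvj' : 0 ≤ v ^ j := pow_nonneg (by linarith) _
        calc (P.coeff (K + (j + 1)) * v ^ (j + 1)) * P.coeff K
            = (P.coeff K * P.coeff (K + j + 1)) * v ^ (j + 1) := by
              rw [← add_assoc]; ring
          _ ≤ (P.coeff (K + 1) * P.coeff (K + j)) * v ^ (j + 1) :=
              mul_le_mul_of_nonneg_right h7 hvj
          _ = (P.coeff (K + 1) * v) * (P.coeff (K + j) * v ^ j) := by ring
          _ ≤ P.coeff K * P.coeff K :=
              mul_le_mul hPKs ih (mul_nonneg (hP0 _) hvj') (hP0 _)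
      exact le_of_mul_le_mul_right h8 hPKp
  have hlo : ∀ j ≤ K, P.coeff (K - j) ≤ u ^ j * P.coeff K := by
    intro j
    induction j with
    | zero => intro _; simp
    | succ j ih =>
      intro hj
      have h7 := hlc (K - (j + 1)) (K - 1) (by omega)
      have e1 : K - 1 + 1 = K := by omega
      have e2 : K - (j + 1) + 1 = K - j := by omega
      rw [e1, e2, hPK1] at h7
      have h8 : P.coeff (K - (j + 1)) * P.coeff K ≤ (u * P.coeff (K - j)) * P.coeff K := by
        linarith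
      have h9 := le_of_mul_le_mul_right h8 hPKp
      have h10 := mul_le_mul_of_nonneg_left (ih (by omega)) hu0
      calc P.coeff (K - (j + 1)) ≤ u * P.coeff (K - j) := h9
        _ ≤ u * (u ^ j * P.coeff K) := h10
        _ = u ^ (j + 1) * P.coeff K := by ring
  have hmon : ∀ k ≤ K + N0, P.coeff k ≤ P.coeff (k + 1) := by
    intro k hk
    rw [hPc k (by omega), hPc (k + 1) (by omega)]
    exact hMon F hF hPres _ _ (hpos k (by omega)) (hainc k (by omega))
  have hfin := core hM P hPne hP0 hR K N0 u v x1 x2 hu0 h1 h2 h3 hv1 hup hlo hmon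
  rw [← hC1, ← hC2] at hfin
  have h20 : (C1 + C2) * 2 < ((N0 : ℝ) - C2) * (x2 - x1) := by
    have h21 : (C1 + C2) * 2 / (x2 - x1) < (N0 : ℝ) - C2 := by linarith
    rwa [div_lt_iff₀ (by linarith)] at h21
  linarith

end Pool.Agent.W560.EW
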